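import Pool.Agent.helper70.M8.Chk
import Pool.Agent.helper70.M9.Rows

set_option autoImplicit false

/-! # OCT9-G1b: values of weighted rows and of Horner sums -/

namespace Oct

namespace G1b

theorem ssub_val (a b : ℕ) : (ssub a b).val = (a : ℤ) - b := by
  unfold ssub
  cases h : Nat.ble b a with
  | false =>
    have h' : ¬ b ≤ a := by
      intro hh
      have := Nat.ble_eq_true_of_le hh
      rw [h] at this
      exact absurd this (by decide)
    show -(((Nat.sub b a : ℕ)) : ℤ) = _
    have h1 : ((Nat.sub b a : ℕ) : ℤ) = (b : ℤ) - a := by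
      have : ((b - a : ℕ) : ℤ) = (b : ℤ) - a := Nat.cast_sub (by omega)
      exact this
    rw [h1]
    ring
  | true =>
    have h' : b ≤ a := Nat.le_of_ble_eq_true h
    show (((Nat.sub a b : ℕ)) : ℤ) = _
    have : ((a - b : ℕ) : ℤ) = (a : ℤ) - b := Nat.cast_sub h'
    exact this

theorem val_neg (v : ℕ) : (SM.mk true v).val = -(v : ℤ) := rfl

theorem val_pos (v : ℕ) : (SM.mk false v).val = (v : ℤ) := rfl

theorem sadd_val (x y : SM) : (sadd x y).val = x.val + y.val := by
  obtain ⟨s, v⟩ := x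
  obtain ⟨s', v'⟩ := y
  cases s <;> cases s'
  · show (SM.mk false (v + v')).val = _
    rw [val_pos, val_pos, val_pos]
    push_cast
    ring
  · show (ssub v v').val = _
    rw [ssub_val, val_pos, val_neg]
    ring
  · show (ssub v' v).val = _
    rw [ssub_val, val_pos, val_neg]
    ring
  · show (SM.mk true (v + v')).val = _
    rw [val_neg, val_neg, val_neg]
    push_cast
    ring

theorem sneg_val (x : SM) : (sneg x).val = -x.val := by
  obtain ⟨s, v⟩ := x
  cases s
  · show (SM.mk true v).val = -(SM.mk false v).val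
    rw [val_pos, val_neg]
  · show (SM.mk false v).val = -(SM.mk true v).val
    rw [val_pos, val_neg, neg_neg]

theorem scale_val (s : Bool) (k v : ℕ) : (SM.mk s (k * v)).val = (k : ℤ) * (SM.mk s v).val := by
  cases s
  · rw [val_pos, val_pos]
    push_cast
    ring
  · rw [val_neg, val_neg]
    push_cast
    ring

theorem smulN_val (k : ℕ) (x : SM) : (smulN k x).val = (k : ℤ) * x.val := scale_val x.s k x.v

theorem mulS_eq (a b S x : ℕ) : mulS a b S x = (a + b * 2 ^ S) * x := by
  show a * x + Nat.shiftLeft (b * x) S = _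
  have h : Nat.shiftLeft (b * x) S = b * x * 2 ^ S := Nat.shiftLeft_eq (b * x) S
  rw [h]
  ring

theorem mulG_val (a b S : ℕ) (x : SM) :
    (mulG a b S x).val = ((a : ℤ) + b * 2 ^ S) * x.val := by
  show (SM.mk x.s (mulS a b S x.v)).val = _
  rw [mulS_eq, scale_val]
  push_cast
  rfl

theorem shP_eq (B x j : ℕ) : shP B x j = (1 + 2 ^ B) ^ j * x := by
  induction j with
  | zero => show x = _; simp
  | succ j ih =>
    show shP B x j + Nat.shiftLeft (shP B x j) B = _
    have h : Nat.shiftLeft (shP B x j) B = shP B x j * 2 ^ B := Nat.shiftLeft_eq _ B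
    rw [h, ih, pow_succ]
    ring

theorem shl_val (s : Bool) (v S : ℕ) :
    (SM.mk (!s) (Nat.shiftLeft v S)).val = -(2 ^ S) * (SM.mk s v).val := by
  have h : Nat.shiftLeft v S = v * 2 ^ S := Nat.shiftLeft_eq v S
  rw [h]
  cases s
  · show -(((v * 2 ^ S : ℕ)) : ℤ) = -(2 ^ S) * (v : ℤ)
    push_cast
    ring
  · show (((v * 2 ^ S : ℕ)) : ℤ) = -(2 ^ S) * (-(v : ℤ))
    push_cast
    ring

/-! ### Horner sums -/

theorem homP_addP (m : ℕ) (p q : List ℤ) (A D : ℤ) :
    homP (R := ℤ) m (addP p q) A D = homP (R := ℤ) m p A D + homP (R := ℤ) m q A D := by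
  induction p generalizing m q with
  | nil => simp [addP, homP]
  | cons x p ih =>
    cases q with
    | nil => simp [addP, homP]
    | cons y q =>
      show (((x + y : ℤ)) : ℤ) * D ^ m + A * homP (R := ℤ) (m - 1) (addP p q) A D =
        ((x : ℤ) * D ^ m + A * homP (R := ℤ) (m - 1) p A D) +
          ((y : ℤ) * D ^ m + A * homP (R := ℤ) (m - 1) q A D)
      rw [ih]
      ring

theorem homP_smulP (m : ℕ) (k : ℤ) (p : List ℤ) (A D : ℤ) :
    homP (R := ℤ) m (smulP k p) A D = k * homP (R := ℤ) m p A D := by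
  induction p generalizing m with
  | nil => simp [smulP, homP]
  | cons x p ih =>
    show (((k * x : ℤ)) : ℤ) * D ^ m + A * homP (R := ℤ) (m - 1) (smulP k p) A D =
      k * ((x : ℤ) * D ^ m + A * homP (R := ℤ) (m - 1) p A D)
    rw [ih]
    ring

theorem map_addT (m : ℕ) (A D : ℤ) (P Q : List (List ℤ)) :
    (addT P Q).map (fun l => homP (R := ℤ) m l A D) =
      addP (P.map (fun l => homP (R := ℤ) m l A D)) (Q.map (fun l => homP (R := ℤ) m l A D)) := by
  induction P generalizing Q with
  | nil => cases Q <;> rfl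
  | cons p P ih =>
    cases Q with
    | nil => rfl
    | cons q Q =>
      show homP (R := ℤ) m (addP p q) A D :: (addT P Q).map (fun l => homP (R := ℤ) m l A D) =
        (homP (R := ℤ) m p A D + homP (R := ℤ) m q A D) ::
          addP (P.map (fun l => homP (R := ℤ) m l A D)) (Q.map (fun l => homP (R := ℤ) m l A D))
      rw [ih, homP_addP]

theorem map_smulP (m : ℕ) (A D : ℤ) (k : ℤ) (P : List (List ℤ)) :
    (P.map (smulP k)).map (fun l => homP (R := ℤ) m l A D) =
      smulP k (P.map (fun l => homP (R := ℤ) m l A D)) := by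
  induction P with
  | nil => rfl
  | cons p P ih =>
    show homP (R := ℤ) m (smulP k p) A D ::
        (P.map (smulP k)).map (fun l => homP (R := ℤ) m l A D) =
      (k * homP (R := ℤ) m p A D) :: smulP k (P.map (fun l => homP (R := ℤ) m l A D))
    rw [ih, homP_smulP]

theorem map_derT (m : ℕ) (A D : ℤ) (P : List (List ℤ)) (k : ℕ) :
    (derT k P).map (fun l => homP (R := ℤ) m l A D) =
      derP k (P.map (fun l => homP (R := ℤ) m l A D)) := by
  induction P generalizing k with
  | nil => rfl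
  | cons p P ih =>
    show homP (R := ℤ) m (smulP (k : ℤ) p) A D ::
        (derT (k + 1) P).map (fun l => homP (R := ℤ) m l A D) =
      ((k : ℤ) * homP (R := ℤ) m p A D) ::
        derP (k + 1) (P.map (fun l => homP (R := ℤ) m l A D))
    rw [ih, homP_smulP]

theorem wG_aux (o k : ℕ) (V : List SM) : ∀ (j : ℕ) (v : SM),
    (wG k (eG o (v :: V) j) (v :: V)).map SM.val =
      addP ((2 * (j : ℤ) * v.val) :: smulP 2 (derP (j + 1) (V.map SM.val)))
        (addP (smulP (-2 * (o : ℤ)) (derP (j + 1) (V.map SM.val)))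
          (smulP (-(k : ℤ)) ((v :: V).map SM.val))) := by
  induction V with
  | nil =>
    intro j v
    show [(sadd (sadd (smulN (2 * j) v) ⟨false, 0⟩) (sneg (smulN k v))).val] =
      [2 * (j : ℤ) * v.val + -(k : ℤ) * v.val]
    rw [sadd_val, sadd_val, sneg_val, smulN_val, smulN_val, val_pos]
    congr 1
    push_cast
    ring
  | cons w V ih =>
    intro j v
    have h := ih (j + 1) w
    show (sadd (sadd (smulN (2 * j) v) (sneg (smulN (2 * o * (j + 1)) w)))
        (sneg (smulN k v))).val :: (wG k (eG o (w :: V) (j + 1)) (w :: V)).map SM.val =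
      (2 * (j : ℤ) * v.val + (-2 * (o : ℤ) * (((j + 1 : ℕ) : ℤ) * w.val) + -(k : ℤ) * v.val)) ::
        addP ((2 * (((j + 1 : ℕ) : ℤ) * w.val)) :: smulP 2 (derP (j + 1 + 1) (V.map SM.val)))
          (addP (smulP (-2 * (o : ℤ)) (derP (j + 1 + 1) (V.map SM.val)))
            (smulP (-(k : ℤ)) ((w :: V).map SM.val)))
    rw [h]
    congr 1
    · rw [sadd_val, sadd_val, sneg_val, sneg_val, smulN_val, smulN_val, smulN_val]
      push_cast
      ring
    · congr 2
      ring

theorem zip_wG (S k : ℕ) (E : List SM) : ∀ (V : List SM) (n : ℕ),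
    (wG k (zipG S E n) (zipG S V n)).map SM.val = (zipG S (wG k E V) n).map SM.val := by
  induction E with
  | nil => intro V n; rfl
  | cons e E ih =>
    intro V n
    cases V with
    | nil => rfl
    | cons v V =>
      show (sadd ⟨e.s, shP S e.v n⟩ (sneg (smulN k ⟨v.s, shP S v.v n⟩))).val ::
          (wG k (zipG S E (Nat.pred n)) (zipG S V (Nat.pred n))).map SM.val =
        (SM.mk (sadd e (sneg (smulN k v))).s (shP S (sadd e (sneg (smulN k v))).v n)).val ::
          (zipG S (wG k E V) (Nat.pred n)).map SM.val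
      rw [ih]
      congr 1
      rw [sadd_val, sneg_val, smulN_val, shP_eq, shP_eq, shP_eq, scale_val, scale_val, scale_val]
      show _ = _ * (sadd e (sneg (smulN k v))).val
      rw [sadd_val, sneg_val, smulN_val]
      show _ * e.val + -((k : ℤ) * (_ * v.val)) = _
      ring

theorem horG_congr (lo hi S : ℕ) (W : List SM) : ∀ (W' : List SM),
    W.map SM.val = W'.map SM.val → (horG lo hi S W).val = (horG lo hi S W').val := by
  induction W with
  | nil =>
    intro W' h
    cases W' with
    | nil => rfl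
    | cons w W' => simp at h
  | cons w W ih =>
    intro W' h
    cases W' with
    | nil => simp at h
    | cons w' W' =>
      simp only [List.map_cons, List.cons.injEq] at h
      show (sadd w (mulG lo hi S (horG lo hi S W))).val =
        (sadd w' (mulG lo hi S (horG lo hi S W'))).val
      rw [sadd_val, sadd_val, mulG_val, mulG_val, h.1, ih W' h.2]

theorem rows_cons {B m a b : ℕ} {l : List ℤ} {H : List (List ℤ)} {V : List SM}
    (h : RowsOf B m (l :: H) a b V) : ∃ v V', V = v :: V' ∧
      v.val = homP (R := ℤ) m l (a + b * 2 ^ B) (1 + 2 ^ B) ∧ RowsOf B m H a b V' := by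
  unfold RowsOf at h
  cases V with
  | nil => simp at h
  | cons v V' =>
    simp only [List.map_cons, List.cons.injEq] at h
    exact ⟨v, V', rfl, h.1, h.2⟩

theorem rows_nil {B m a b : ℕ} {V : List SM} (h : RowsOf B m [] a b V) : V = [] := by
  unfold RowsOf at h
  simpa using h

end G1b

open G1b

theorem wG_rows {B m a b : ℕ} {G : List (List ℤ)} {V : List SM} (hne : G ≠ [])
    (h : RowsOf B m G a b V) (hl : ∀ l ∈ G, l.length ≤ m + 1) (o k : ℕ) :
    RowsOf B m (wT (o : ℤ) k G) a b (wG k (eG o V 0) V) := by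
  cases G with
  | nil => exact absurd rfl hne
  | cons l G =>
    obtain ⟨v, V', rfl, hv, hV'⟩ := rows_cons h
    unfold RowsOf at h hV' ⊢
    have hd : (dU (l :: G)) = derT 1 G := rfl
    have h1 : ([] :: (dU (l :: G)).map (smulP 2)).map
        (fun l => homP (R := ℤ) m l (a + b * 2 ^ B) (1 + 2 ^ B)) =
        0 :: smulP 2 (derP 1 (V'.map SM.val)) := by
      rw [List.map_cons, map_smulP, hd, map_derT, hV']
      rfl
    rw [wG_aux, h]
    unfold wT
    rw [map_addT, map_addT, h1, map_smulP, map_smulP, hd, map_derT, ← hV']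
    simp

theorem horG_zip_val {B m n a b lo hi : ℕ} {H : List (List ℤ)} {V : List SM}
    (h : RowsOf B m H a b V) (hn : H.length ≤ n + 1) :
    (horG lo hi (B * (m + 1)) (zipG (B * (m + 1)) V n)).val =
      homT (R := ℤ) m n H (a + b * 2 ^ B) (1 + 2 ^ B) (lo + hi * 2 ^ (B * (m + 1)))
        (1 + 1 * 2 ^ (B * (m + 1))) := by
  clear hn
  induction H generalizing V n with
  | nil =>
    rw [rows_nil h]
    rfl
  | cons l H ih =>
    obtain ⟨v, V', rfl, hv, hV'⟩ := rows_cons h
    show (sadd ⟨v.s, shP (B * (m + 1)) v.v n⟩ (mulG lo hi (B * (m + 1))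
        (horG lo hi (B * (m + 1)) (zipG (B * (m + 1)) V' (n - 1))))).val =
      homP (R := ℤ) m l (a + b * 2 ^ B) (1 + 2 ^ B) * (1 + 1 * 2 ^ (B * (m + 1))) ^ n +
        (lo + hi * 2 ^ (B * (m + 1))) * homT (R := ℤ) m (n - 1) H (a + b * 2 ^ B) (1 + 2 ^ B)
          (lo + hi * 2 ^ (B * (m + 1))) (1 + 1 * 2 ^ (B * (m + 1)))
    rw [sadd_val, mulG_val, ih hV', shP_eq, scale_val, ← hv]
    show _ * v.val + _ = _
    push_cast
    ring

theorem horG_zip_wG (n o k lo hi S : ℕ) (V : List SM) :
    (horG lo hi S (wG k (zipG S (eG o V 0) n) (zipG S V n))).val =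
      (horG lo hi S (zipG S (wG k (eG o V 0) V) n)).val :=
  horG_congr lo hi S _ _ (zip_wG S k (eG o V 0) V n)

theorem horG_val {B m n a b lo hi S : ℕ} {H : List (List ℤ)} {V : List SM}
    (h : RowsOf B m H a b V) (hn : H.length ≤ n + 1) :
    (horG lo hi S V).val =
      homT (R := ℤ) m n H (a + b * 2 ^ B) (1 + 2 ^ B) (lo + hi * 2 ^ S) (1 + 0 * 2 ^ S) := by
  clear hn
  induction H generalizing V n with
  | nil =>
    rw [rows_nil h]
    rfl
  | cons l H ih =>
    obtain ⟨v, V', rfl, hv, hV'⟩ := rows_cons h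
    show (sadd v (mulG lo hi S (horG lo hi S V'))).val =
      homP (R := ℤ) m l (a + b * 2 ^ B) (1 + 2 ^ B) * (1 + 0 * 2 ^ S) ^ n +
        (lo + hi * 2 ^ S) * homT (R := ℤ) m (n - 1) H (a + b * 2 ^ B) (1 + 2 ^ B)
          (lo + hi * 2 ^ S) (1 + 0 * 2 ^ S)
    rw [sadd_val, mulG_val, ih (n := n - 1) hV', ← hv]
    simp

theorem horL_val {B m n a b L S : ℕ} {H : List (List ℤ)} {V : List SM}
    (h : RowsOf B m H a b V) (hn : H.length ≤ n + 1) :
    (horL L S V).val =
      homT (R := ℤ) m n H (a + b * 2 ^ B) (1 + 2 ^ B) (L + (-1) * 2 ^ S) (1 + 0 * 2 ^ S) := by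
  clear hn
  induction H generalizing V n with
  | nil =>
    rw [rows_nil h]
    rfl
  | cons l H ih =>
    obtain ⟨v, V', rfl, hv, hV'⟩ := rows_cons h
    show (sadd v (sadd (smulN L (horL L S V'))
        (SM.mk (!(horL L S V').s) (Nat.shiftLeft (horL L S V').v S)))).val =
      homP (R := ℤ) m l (a + b * 2 ^ B) (1 + 2 ^ B) * (1 + 0 * 2 ^ S) ^ n +
        (L + (-1) * 2 ^ S) * homT (R := ℤ) m (n - 1) H (a + b * 2 ^ B) (1 + 2 ^ B)
          (L + (-1) * 2 ^ S) (1 + 0 * 2 ^ S)
    rw [sadd_val, sadd_val, smulN_val, shl_val, ← hv, ← ih (n := n - 1) hV']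
    show v.val + ((L : ℤ) * (horL L S V').val + -(2 ^ S) * (horL L S V').val) = _
    simp
    ring

end Oct
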